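import Pool.Agent.Helper75.FU.StG

/-!
# Project FU: module G3 (the unit trick, assembly)
-/

set_option autoImplicit false

namespace Pool.Agent.Helper26.FU

universe u

open Pool.Agent.Helper91.GU Pool.Agent.Helper75.FU

/-- if `i = c·d` and `i` becomes a unit then the image of `c` is unimodular -/
theorem um_of_unit_G3 {A B : Type u} [CommRing A] [CommRing B] (φ : A →+* B) {r : ℕ}
    (c d : Fin r → A) (i : A) (hi : i = c ⬝ᵥ d) (hu : IsUnit (φ i)) : Um (mp φ c) := by
  obtain ⟨w, hw⟩ := hu.exists_left_inv
  refine ⟨fun j => w * φ (d j), ?_⟩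
  rw [← hw, hi]
  unfold dotProduct mp
  rw [map_sum, Finset.mul_sum]
  refine Finset.sum_congr rfl fun j _ => ?_
  rw [map_mul]
  ring

theorem one_mem_G3 {B : Type u} [CommRing B] {r : ℕ} (c : Fin r → B) (h : Um c) :
    1 ∈ idl c := by
  obtain ⟨y, hy⟩ := h
  unfold idl
  rw [Ideal.mem_span_range_iff_exists_fun]
  refine ⟨y, ?_⟩
  rw [← hy]
  unfold dotProduct
  exact Finset.sum_congr rfl fun j _ => mul_comm _ _

theorem hG3 (hA0 : StA0.{u}) (hB7 : StB7.{u}) (hG1 : StG1.{u}) (hG2 : StG2.{u}) :
    StG3.{u} := by
  intro A _ s a w c ha hw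
  obtain ⟨y, hy⟩ := ha
  obtain ⟨y', hy'⟩ := hw
  unfold dotProduct row at hy hy'
  simp only [Fintype.sum_sum_type, Finset.univ_unique, Finset.sum_singleton, Sum.elim_inl,
    Sum.elim_inr] at hy hy'
  set a' : A := y (Sum.inl default) with ha'
  set w' : A := y' (Sum.inl default) with hw'
  set d : Fin (s + 1) → A := fun j => y (Sum.inr j) + a * a' * y' (Sum.inr j) with hd
  have hid : 1 - a * w * (a' * w') = c ⬝ᵥ d := by
    have e1 : c ⬝ᵥ d = (∑ j, c j * y (Sum.inr j)) + a * a' * ∑ j, c j * y' (Sum.inr j) := by
      unfold dotProduct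
      rw [Finset.mul_sum, ← Finset.sum_add_distrib]
      refine Finset.sum_congr rfl fun j _ => ?_
      simp only [hd]
      ring
    rw [e1]
    have e2 : (∑ j, c j * y (Sum.inr j)) = 1 - a * a' := by
      rw [← hy]; ring
    have e3 : (∑ j, c j * y' (Sum.inr j)) = 1 - w * w' := by
      rw [← hy']; ring
    rw [e2, e3]
    ring
  set i : A := 1 - a * w * (a' * w') with hi
  set f : A := a * w * (a' * w') with hf
  have hcop : IsCoprime f i := ⟨1, 1, by rw [hi]; ring⟩
  obtain ⟨Afi, _, _, _, _, hsq⟩ := hA0 A f i hcop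
  have htow := hsq.towf
  have hfu : IsUnit (algebraMap A (Localization.Away f) f) :=
    IsLocalization.Away.algebraMap_isUnit _
  have hau : IsUnit (algebraMap A (Localization.Away f) a) := by
    rw [hf, map_mul, map_mul] at hfu
    exact isUnit_of_mul_isUnit_left (isUnit_of_mul_isUnit_left hfu)
  have hwu : IsUnit (algebraMap A (Localization.Away f) w) := by
    rw [hf, map_mul, map_mul] at hfu
    exact isUnit_of_mul_isUnit_right (isUnit_of_mul_isUnit_left hfu)
  have hiu : IsUnit (algebraMap A (Localization.Away i) i) :=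
    IsLocalization.Away.algebraMap_isUnit _
  have hiu' : IsUnit (algebraMap A Afi i) := by
    have h1 : IsUnit (algebraMap (Localization.Away f) Afi
        (algebraMap A (Localization.Away f) i)) := by
      have := hsq.locfi'
      exact IsLocalization.Away.algebraMap_isUnit _
    rw [IsScalarTower.algebraMap_apply A (Localization.Away f) Afi i]
    exact h1
  have hmp : mp (algebraMap A Afi) c =
      mp (algebraMap (Localization.Away f) Afi) (mp (algebraMap A (Localization.Away f)) c) := by
    funext j
    exact IsScalarTower.algebraMap_apply A (Localization.Away f) Afi (c j)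
  have hwpow : algebraMap A Afi (w ^ (s + 1).factorial) =
      (algebraMap (Localization.Away f) Afi (algebraMap A (Localization.Away f) w))
        ^ (s + 1).factorial := by
    rw [map_pow, IsScalarTower.algebraMap_apply A (Localization.Away f) Afi w]
  have hUm : Um (mp (algebraMap (Localization.Away f) Afi)
      (mp (algebraMap A (Localization.Away f)) c)) := by
    rw [← hmp]
    exact um_of_unit_G3 _ c d i hid hiu'
  have key : REq (row a c) (row (a * w ^ (s + 1).factorial) c) := by
    refine hG2 A (Localization.Away f) (Localization.Away i) Afi f i hsq (s + 1) a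
      (w ^ (s + 1).factorial) c hau ?_ ?_ ?_
    · rw [map_pow]
      exact hwu.pow _
    · exact one_mem_G3 _ (um_of_unit_G3 _ c d i hid hiu)
    · intro t ht
      rw [hmp, hwpow] at ht
      obtain ⟨δ, k, hδ, hk, hθ⟩ := hG1 (Localization.Away f) Afi
        (algebraMap (Localization.Away f) Afi) s (algebraMap A (Localization.Away f) w)
        (mp (algebraMap A (Localization.Away f)) c) hwu hUm t ht
      refine ⟨δ, k, hδ, hk, ?_⟩
      rw [hmp]
      exact hθ
  exact ((hB7 A A (RingHom.id A)).1 (Unit ⊕ Fin (s + 1))).2.1 _ _ key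

end Pool.Agent.Helper26.FU
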