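import Pool.Agent.Helper75.FU.StM

/-!
# Project FU: module M3 (the face maps of a monoid algebra)
-/

set_option autoImplicit false

namespace Pool.Agent.Helper26.FU

universe u

open Pool.Agent.Helper91.GU Pool.Agent.Helper75.FU

/-- the multiplicative map `m ↦ single m 1` if `κ m = 0`, `0` otherwise -/
noncomputable def faceHom_M3 (R : Type u) [CommRing R] (N : Type) [AddCommMonoid N]
    (κ : N →+ ℕ) : Multiplicative N →* AddMonoidAlgebra R N where
  toFun m := if κ m.toAdd = 0 then AddMonoidAlgebra.single m.toAdd 1 else 0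
  map_one' := by
    simp [AddMonoidAlgebra.one_def]
  map_mul' a b := by
    by_cases h1 : κ a.toAdd = 0
    · by_cases h2 : κ b.toAdd = 0
      · simp [h1, h2, AddMonoidAlgebra.single_mul_single]
      · simp [h1, h2]
    · simp [h1]

theorem hM3 : StM3.{u} := by
  intro R _ N _ κ
  classical
  refine ⟨(AddMonoidAlgebra.lift R (AddMonoidAlgebra R N) N (faceHom_M3 R N κ)).toRingHom, ?_⟩
  intro f m
  change ((AddMonoidAlgebra.lift R (AddMonoidAlgebra R N) N (faceHom_M3 R N κ)) f).coeff m = _
  induction f using AddMonoidAlgebra.induction_on with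
  | of a =>
    rw [AddMonoidAlgebra.lift_of]
    simp only [faceHom_M3, MonoidHom.coe_mk, OneHom.coe_mk, AddMonoidAlgebra.of_apply,
      toAdd_ofAdd]
    by_cases h : κ a = 0
    · rw [if_pos h]
      by_cases h2 : κ m = 0
      · rw [if_pos h2]
      · rw [if_neg h2, AddMonoidAlgebra.coeff_single, Finsupp.single_apply, if_neg]
        rintro rfl
        exact h2 h
    · rw [if_neg h]
      by_cases h2 : κ m = 0
      · rw [if_pos h2, AddMonoidAlgebra.coeff_single, Finsupp.single_apply, if_neg]
        · simp
        · rintro rfl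
          exact h h2
      · rw [if_neg h2]
        simp
  | add x y hx hy =>
    rw [map_add, AddMonoidAlgebra.coeff_add, Finsupp.add_apply, hx, hy,
      AddMonoidAlgebra.coeff_add, Finsupp.add_apply]
    by_cases h2 : κ m = 0
    · rw [if_pos h2, if_pos h2, if_pos h2]
    · rw [if_neg h2, if_neg h2, if_neg h2, add_zero]
  | smul r x hx =>
    rw [map_smul, AddMonoidAlgebra.coeff_smul, Finsupp.smul_apply, hx,
      AddMonoidAlgebra.coeff_smul, Finsupp.smul_apply]
    by_cases h2 : κ m = 0
    · rw [if_pos h2, if_pos h2]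
    · rw [if_neg h2, if_neg h2, smul_zero]

end Pool.Agent.Helper26.FU
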